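import Pool.Agent.Helper78.OE.GoalsC1

/-!
Project OE (MP_fc0446_an), packet OE-TROUT: moves inside a set which contains all open edges do not
change anything outside. The tripod part is for available moves (without
availability the statement would be false).
-/

open Pool.Agent.Helper73.OE Pool.Agent.Helper78.OE

namespace Pool.Agent.Helper59.OE

variable {H S L : Type} [Group H] (X : Sys H S L)

/-- The corrected form of TROUT: the tripod part is for available moves. -/
def TROUT' : Prop :=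
  ∀ (O : Edges H S) (f : Cfg H S L) (Λ : Set H), (∀ v s, O v s → v ∈ Λ ∧ X.nb v s ∈ Λ) →
    ∀ v ∈ Λ, ∀ z, z ∉ Λ → ∀ (p : S) (y k : L),
      (∀ n, X.flipP O f z n v p y = 1) ∧ X.flip O v p y f z = f z ∧
        ∀ m M, X.Av O M f m v p y k → X.triP O f z m v p y k = 1 ∧ X.TR O m v p y k f z = f z

theorem flipP_out (O : Edges H S) (f : Cfg H S L) (Λ : Set H)
    (hO : ∀ v s, O v s → v ∈ Λ ∧ X.nb v s ∈ Λ) (z : H) (hz : z ∉ Λ) (n : ℕ) :
    ∀ (v : H), v ∈ Λ → ∀ (p : S) (y : L), X.flipP O f z n v p y = 1 := by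
  induction n with
  | zero =>
    intro v hv p y
    have hzv : z ≠ v := fun h => hz (h ▸ hv)
    simp [Sys.flipP, hzv]
  | succ n ih =>
    intro v hv p y
    have hzv : z ≠ v := fun h => hz (h ▸ hv)
    simp only [Sys.flipP, if_neg hzv]
    split_ifs with ho
    · exact ih _ (hO _ _ ho).2 _ _
    · rfl

theorem armP_out (O : Edges H S) (f : Cfg H S L) (Λ : Set H)
    (hO : ∀ v s, O v s → v ∈ Λ ∧ X.nb v s ∈ Λ) (z : H) (hz : z ∉ Λ) (u : H) (t : S) (y : L) :
    X.armP O f z u t y = 1 := by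
  unfold Sys.armP
  split_ifs with ho
  · exact flipP_out X O f Λ hO z hz _ _ (hO _ _ ho).2 _ _
  · rfl

theorem triP_out (O : Edges H S) (f : Cfg H S L) (Λ : Set H)
    (hO : ∀ v s, O v s → v ∈ Λ ∧ X.nb v s ∈ Λ) (z : H) (hz : z ∉ Λ) (M : ℕ) (m : ℕ) :
    ∀ (v : H), v ∈ Λ → ∀ (p : S) (y k : L), X.Av O M f m v p y k →
      X.triP O f z m v p y k = 1 := by
  induction m with
  | zero =>
    intro v hv p y k _
    have hzv : z ≠ v := fun h => hz (h ▸ hv)
    simp only [Sys.triP, if_neg hzv, armP_out X O f Λ hO z hz]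
    rfl
  | succ m ih =>
    intro v hv p y k hav
    have hzv : z ≠ v := fun h => hz (h ▸ hv)
    simp only [Sys.triP, if_neg hzv]
    exact ih _ (hO _ _ hav.1).2 _ _ _ hav.2

theorem trout' : TROUT' X := by
  intro O f Λ hO v hv z hz p y k
  refine ⟨fun n => flipP_out X O f Λ hO z hz n v hv p y, ?_, ?_⟩
  · unfold Sys.flip
    rw [flipP_out X O f Λ hO z hz _ v hv p y]
    rfl
  · intro m M hav
    have h := triP_out X O f Λ hO z hz M m v hv p y k hav
    refine ⟨h, ?_⟩
    unfold Sys.TR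
    rw [h]
    rfl

end Pool.Agent.Helper59.OE
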